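import Mathlib
import Pool.Agent.Helper80.JumpTree
import Pool.Agent.Helper80.JumpBase

set_option autoImplicit false

/-!
# Diversity-seeking jump games on trees need not be weakly acyclic

A tree with twenty nodes and nineteen agents of two types suffices; padding gives every number
`k ≥ 2` of types and every number `e ≥ 1` of empty nodes.

Four slots `a - b - c - d` form a path.  They have `1, 3, 3, 1` further neighbours, all occupied by
agents of type `0`, and each of these has a private leaf occupied by an agent of type `1`.  These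
sixteen agents always have utility `1`.  Three agents of type `1` sit in the four slots; from each
position exactly one improving jump is available and the positions form a cycle of length four.
-/

namespace Pool.Agent.Results.MP_39759c_lc.WeakAcyclicityFails

open Finset
open Pool.Agent.Helper80.JumpTree Pool.Agent.Helper80.JumpBase

open Classical in
/-- The utility of agent `i` when agent `j` sits at node `a j` (for all `j`) and has type `τ j`:
the number of agents of another type on nodes adjacent to the node of `i`, divided by the number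
of agents on adjacent nodes; it is `0` when there are no agents on adjacent nodes
(`x / 0 = 0` in `ℚ`). -/
noncomputable def utility {V A T : Type} [Fintype A] (G : SimpleGraph V) (τ : A → T)
    (a : A → V) (i : A) : ℚ :=
  ((univ.filter fun j => G.Adj (a i) (a j) ∧ τ j ≠ τ i).card : ℚ) /
    ((univ.filter fun j => G.Adj (a i) (a j)).card : ℚ)

/-- `b` arises from the assignment `a` by an improving jump: some agent `i` moves to the node
`b i`, which is empty in `a`, all other agents stay, and the utility of `i` in the new assignment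
`b` is larger than its utility in `a`. -/
def ImprovingJump {V A T : Type} [Fintype A] (G : SimpleGraph V) (τ : A → T)
    (a b : A ↪ V) : Prop :=
  ∃ i : A, (∀ j, a j ≠ b i) ∧ (∀ j, j ≠ i → b j = a j) ∧ utility G τ a i < utility G τ b i

/-- No agent has an improving jump. -/
def IsEquilibrium {V A T : Type} [Fintype A] (G : SimpleGraph V) (τ : A → T)
    (a : A ↪ V) : Prop :=
  ∀ b : A ↪ V, ¬ ImprovingJump G τ a b

/-- From every assignment some finite sequence of improving jumps ends in an equilibrium. -/
def WeaklyAcyclic {V A T : Type} [Fintype A] (G : SimpleGraph V) (τ : A → T) : Prop :=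
  ∀ a : A ↪ V, ∃ b : A ↪ V, Relation.ReflTransGen (ImprovingJump G τ) a b ∧ IsEquilibrium G τ b

/-! ### General facts -/

section General

variable {V A T : Type} [Fintype A] (G : SimpleGraph V) (τ : A → T)

theorem utility_nonneg (a : A → V) (i : A) : 0 ≤ utility G τ a i := by
  unfold utility
  positivity

theorem utility_le_one (a : A → V) (i : A) : utility G τ a i ≤ 1 := by
  unfold utility
  apply div_le_one_of_le₀
  · exact_mod_cast card_le_card (fun j => by
      simp only [mem_filter, mem_univ, true_and]
      exact fun h => h.1)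
  · positivity

theorem utility_eq_one (a : A → V) (i : A) (h1 : ∀ j, G.Adj (a i) (a j) → τ j ≠ τ i)
    (h2 : ∃ j, G.Adj (a i) (a j)) : utility G τ a i = 1 := by
  classical
  unfold utility
  have h3 : (univ.filter fun j => G.Adj (a i) (a j) ∧ τ j ≠ τ i) =
      univ.filter fun j => G.Adj (a i) (a j) := by
    ext j
    simp only [mem_filter, mem_univ, true_and]
    exact ⟨fun h => h.1, fun h => ⟨h, h1 j h⟩⟩
  have h4 : ((univ.filter fun j => G.Adj (a i) (a j)).card : ℚ) ≠ 0 := by
    obtain ⟨j, hj⟩ := h2
    exact_mod_cast (card_pos.2 ⟨j, by simpa using hj⟩).ne'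
  have h5 := div_self h4
  convert h5 using 3
  exact congrArg _ h3

theorem utility_eq_zero (a : A → V) (i : A) (h1 : ∀ j, G.Adj (a i) (a j) → τ j = τ i) :
    utility G τ a i = 0 := by
  classical
  unfold utility
  rw [div_eq_zero_iff]
  left
  rw [Nat.cast_eq_zero, card_eq_zero, filter_eq_empty_iff]
  intro j _ hj
  exact hj.2 (h1 j hj.1)

end General

/-! ### The example -/

section Example

variable (k e : ℕ)

/-- Nodes: twenty base nodes, `k - 2` nodes for the additional types, `e - 1` additional empty
nodes. -/
abbrev Node : Type := Fin 20 ⊕ (Fin (k - 2) ⊕ Fin (e - 1))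

/-- Agents: nineteen base agents and one for each additional type. -/
abbrev Ag : Type := Fin 19 ⊕ Fin (k - 2)

theorem par_lt (v : ℕ) (hv : v < 20) : par v < 20 := by
  unfold par
  split_ifs <;> omega

theorem par_lt_self (v : ℕ) (hv : v ≠ 0) : par v < v := by
  unfold par
  split_ifs <;> omega

/-- Parents in the example. -/
def parent : Node k e → Node k e
  | Sum.inl v => Sum.inl ⟨par v.val, par_lt v.val v.isLt⟩
  | Sum.inr _ => Sum.inl ⟨19, by norm_num⟩

/-- The tree of the example. -/
def tree : SimpleGraph (Node k e) := parentGraph (Sum.inl 0) (parent k e)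

theorem tree_isTree : (tree k e).IsTree := by
  apply parentGraph_isTree (rank := fun v => match v with
    | Sum.inl v => v.val
    | Sum.inr _ => 20)
  intro v hv
  rcases v with v | v
  · have : v.val ≠ 0 := fun h => hv (by congr 1; exact Fin.ext h)
    exact par_lt_self v.val this
  · show (19 : ℕ) < 20
    norm_num

theorem adj_base (u v : Fin 20) :
    (tree k e).Adj (Sum.inl u) (Sum.inl v) ↔ adjb u.val v.val = true := by
  unfold tree
  rw [parentGraph_adj]
  simp only [parent, ne_eq, Sum.inl.injEq, Fin.ext_iff, adjb, Bool.or_eq_true, Bool.and_eq_true,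
    decide_eq_true_eq]
  constructor
  · rintro ⟨h, ⟨h1, h2⟩ | ⟨h1, h2⟩⟩
    · left
      refine ⟨?_, by simpa using h2⟩
      have : v.val ≠ 0 := by simpa using h1
      omega
    · right
      refine ⟨?_, by simpa using h2⟩
      have : u.val ≠ 0 := by simpa using h1
      omega
  · rintro (⟨h1, h2⟩ | ⟨h1, h2⟩)
    · have h3 := par_lt_self v.val (by omega)
      exact ⟨by omega, Or.inl ⟨by simpa using (by omega : v.val ≠ 0), by simpa using h2⟩⟩
    · have h3 := par_lt_self u.val (by omega)
      exact ⟨by omega, Or.inr ⟨by simpa using (by omega : u.val ≠ 0), by simpa using h2⟩⟩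

theorem adj_extra (u : Node k e) (v : Fin (k - 2) ⊕ Fin (e - 1)) :
    (tree k e).Adj (Sum.inr v) u ↔ u = Sum.inl ⟨19, by norm_num⟩ := by
  unfold tree
  rw [parentGraph_adj]
  constructor
  · rintro ⟨h, ⟨h1, h2⟩ | ⟨h1, h2⟩⟩
    · rcases u with u | u
      · simp [parent] at h2
      · simp [parent] at h2
    · rw [← h2]
      rfl
  · rintro rfl
    exact ⟨by simp, Or.inr ⟨by simp, rfl⟩⟩

/-- Types in the example (as natural numbers). -/
def tyN : Ag k → ℕ
  | Sum.inl j => tyb j.val
  | Sum.inr j => j.val + 2

theorem tyN_lt (hk : 2 ≤ k) (x : Ag k) : tyN k x < k := by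
  rcases x with j | j
  · show tyb j.val < k
    unfold tyb
    split_ifs <;> omega
  · show j.val + 2 < k
    have := j.isLt
    omega

/-- Types in the example. -/
def ty (hk : 2 ≤ k) (x : Ag k) : Fin k := ⟨tyN k x, tyN_lt k hk x⟩

theorem ty_ne_iff (hk : 2 ≤ k) (x y : Ag k) : ty k hk x ≠ ty k hk y ↔ tyN k x ≠ tyN k y := by
  simp [ty, Fin.ext_iff]

/-- The trap: all agents except base agents `0, 1, 2` are at home, and these three sit in the
slots `0, 1, 2, 3`. -/
def InTrap (a : Ag k ↪ Node k e) : Prop :=
  (∀ j : Fin 19, 3 ≤ j.val → a (Sum.inl j) = Sum.inl j.succ) ∧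
  (∀ j : Fin (k - 2), a (Sum.inr j) = Sum.inr (Sum.inl j)) ∧
  (∀ j : Fin 19, j.val < 3 → ∃ s : Fin 20, s.val < 4 ∧ a (Sum.inl j) = Sum.inl s)

/-- All agents outside `0, 1, 2` are happy in the trap. -/
theorem happy (hk : 2 ≤ k) (a : Ag k ↪ Node k e) (ha : InTrap k e a) (x : Ag k)
    (hx : ∀ j : Fin 19, x = Sum.inl j → 3 ≤ j.val) :
    utility (tree k e) (ty k hk) a x = 1 := by
  obtain ⟨h1, h2, h3⟩ := ha
  apply utility_eq_one
  · intro y hy
    rw [ty_ne_iff]
    rcases x with j | j
    · have hj := hx j rfl
      rw [h1 j hj] at hy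
      rcases y with i | i
      · by_cases hi : 3 ≤ i.val
        · rw [h1 i hi, adj_base] at hy
          exact (frozen_types j i hj hi (by simpa using hy)).symm
        · obtain ⟨s, hs, hs'⟩ := h3 i (by omega)
          rw [hs', adj_base] at hy
          have h4 := frozen_slot j ⟨s.val, hs⟩ hj (by simpa using hy)
          show tyb i.val ≠ tyb j.val
          rw [h4]
          unfold tyb
          rw [if_pos (by omega)]
          norm_num
      · rw [h2 i] at hy
        have h4 := (adj_extra k e _ _).1 hy.symm
        rw [Sum.inl.injEq, Fin.ext_iff] at h4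
        simp only [Fin.val_succ] at h4
        show i.val + 2 ≠ tyb j.val
        unfold tyb
        split_ifs <;> omega
    · rw [h2 j] at hy
      have h4 := (adj_extra k e _ _).1 hy
      rcases y with i | i
      · by_cases hi : 3 ≤ i.val
        · show tyb i.val ≠ j.val + 2
          unfold tyb
          split_ifs <;> omega
        · show tyb i.val ≠ j.val + 2
          unfold tyb
          split_ifs <;> omega
      · rw [h2 i] at h4
        cases h4
  · rcases x with j | j
    · have hj := hx j rfl
      obtain ⟨i, hi, hi'⟩ := frozen_nbr j hj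
      refine ⟨Sum.inl i, ?_⟩
      rw [h1 j hj, h1 i hi, adj_base]
      simpa using hi'
    · refine ⟨Sum.inl 18, ?_⟩
      rw [h2 j, h1 18 (by decide), adj_extra]
      rfl

/-- The trap is closed under improving jumps. -/
theorem trap_closed (hk : 2 ≤ k) (a b : Ag k ↪ Node k e) (ha : InTrap k e a)
    (hab : ImprovingJump (tree k e) (ty k hk) a b) : InTrap k e b := by
  classical
  obtain ⟨x, hv, hbo, hu⟩ := hab
  -- the moving agent is mobile
  have hx : ∃ i : Fin 19, x = Sum.inl i ∧ i.val < 3 := by
    by_contra hcon
    have hx1 : ∀ j : Fin 19, x = Sum.inl j → 3 ≤ j.val := by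
      intro j hj
      by_contra h
      exact hcon ⟨j, hj, by omega⟩
    have := happy k e hk a ha x hx1
    rw [this] at hu
    exact absurd hu (not_lt.2 (utility_le_one _ _ _ _))
  obtain ⟨i, rfl, hi⟩ := hx
  obtain ⟨v, hbi⟩ : ∃ v, b (Sum.inl i) = v := ⟨_, rfl⟩
  rw [hbi] at hv
  obtain ⟨h1, h2, h3⟩ := ha
  have h1' : ∀ j : Fin 19, 3 ≤ j.val → b (Sum.inl j) = Sum.inl j.succ := by
    intro j hj
    rw [hbo _ (by intro h; rw [Sum.inl.injEq] at h; rw [h] at hj; omega)]
    exact h1 j hj
  have h2' : ∀ j : Fin (k - 2), b (Sum.inr j) = Sum.inr (Sum.inl j) := by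
    intro j
    rw [hbo _ (by simp)]
    exact h2 j
  refine ⟨h1', h2', ?_⟩
  intro j hj
  by_cases hji : j = i
  · subst hji
    -- the target is a slot
    rcases v with v | v
    · refine ⟨v, ?_, hbi⟩
      by_contra hcon
      have h4 : 4 ≤ v.val := by omega
      have h5 := hv (Sum.inl ⟨v.val - 1, by have := v.isLt; omega⟩)
      apply h5
      rw [h1 _ (by simpa using (by omega : 3 ≤ v.val - 1))]
      congr 1
      apply Fin.ext
      simp only [Fin.val_succ]
      omega
    · exfalso
      have h4 : utility (tree k e) (ty k hk) b (Sum.inl j) = 0 := by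
        apply utility_eq_zero
        intro y hy
        rw [hbi, adj_extra] at hy
        -- only agent 18 sits at node 19
        have h5 : y = Sum.inl 18 := by
          apply b.injective
          rw [hy, h1' 18 (by decide)]
          rfl
        rw [h5]
        apply Fin.ext
        show tyb 18 = tyb j.val
        unfold tyb
        rw [if_neg (by norm_num), if_neg (by norm_num), if_pos hj]
      rw [h4] at hu
      exact absurd hu (not_lt.2 (utility_nonneg _ _ _ _))
  · obtain ⟨s, hs, hs'⟩ := h3 j hj
    refine ⟨s, hs, ?_⟩
    rw [hbo _ (by intro h; exact hji (Sum.inl.inj h))]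
    exact hs'

/-- The base position function of a configuration in the trap. -/
theorem pos_spec (a : Ag k ↪ Node k e) (ha : InTrap k e a) :
    ∃ x y z : Fin 4, x ≠ y ∧ x ≠ z ∧ y ≠ z ∧
      ∀ j : Fin 19, ∃ h : pos x.val y.val z.val j.val < 20,
        a (Sum.inl j) = Sum.inl ⟨pos x.val y.val z.val j.val, h⟩ := by
  obtain ⟨h1, h2, h3⟩ := ha
  obtain ⟨x, hx, hx'⟩ := h3 0 (by decide)
  obtain ⟨y, hy, hy'⟩ := h3 1 (by decide)
  obtain ⟨z, hz, hz'⟩ := h3 2 (by decide)
  have hne : ∀ (i j : Fin 19) (u v : Fin 20), i ≠ j → a (Sum.inl i) = Sum.inl u →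
      a (Sum.inl j) = Sum.inl v → u.val ≠ v.val := by
    intro i j u v hij hi hj huv
    apply hij
    have : a (Sum.inl i) = a (Sum.inl j) := by rw [hi, hj, Fin.ext huv]
    exact Sum.inl.inj (a.injective this)
  refine ⟨⟨x.val, hx⟩, ⟨y.val, hy⟩, ⟨z.val, hz⟩, ?_, ?_, ?_, ?_⟩
  · intro h
    exact hne 0 1 x y (by decide) hx' hy' (by simpa using h)
  · intro h
    exact hne 0 2 x z (by decide) hx' hz' (by simpa using h)
  · intro h
    exact hne 1 2 y z (by decide) hy' hz' (by simpa using h)
  · intro j
    by_cases h0 : j = 0
    · subst h0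
      refine ⟨?_, ?_⟩
      · show x.val < 20
        exact x.isLt
      · rw [hx']
        rfl
    · by_cases h1j : j = 1
      · subst h1j
        refine ⟨?_, ?_⟩
        · show y.val < 20
          exact y.isLt
        · rw [hy']
          rfl
      · by_cases h2j : j = 2
        · subst h2j
          refine ⟨?_, ?_⟩
          · show z.val < 20
            exact z.isLt
          · rw [hz']
            rfl
        · have hj0 : j.val ≠ 0 := fun h => h0 (Fin.ext h)
          have hj1 : j.val ≠ 1 := fun h => h1j (Fin.ext h)
          have hj2 : j.val ≠ 2 := fun h => h2j (Fin.ext h)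
          have hp : pos x.val y.val z.val j.val = j.val + 1 := by
            unfold pos
            rw [if_neg hj0, if_neg hj1, if_neg hj2]
          refine ⟨?_, ?_⟩
          · show pos x.val y.val z.val j.val < 20
            rw [hp]
            have := j.isLt
            omega
          · rw [h1 j (by omega)]
            congr 1
            apply Fin.ext
            show j.val + 1 = pos x.val y.val z.val j.val
            rw [hp]

theorem card_filter_fin (n : ℕ) (P : ℕ → Bool) :
    (univ.filter fun j : Fin n => P j.val = true).card = ((List.range n).filter P).length := by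
  rw [← Finset.card_map (Fin.valEmbedding (n := n))]
  have : ((univ.filter fun j : Fin n => P j.val = true).map Fin.valEmbedding) =
      ((List.range n).filter P).toFinset := by
    ext m
    simp only [mem_map, mem_filter, mem_univ, true_and, Fin.valEmbedding_apply,
      List.mem_toFinset, List.mem_filter, List.mem_range]
    constructor
    · rintro ⟨j, hj, rfl⟩
      exact ⟨j.isLt, hj⟩
    · rintro ⟨h, h'⟩
      exact ⟨⟨m, h⟩, h', rfl⟩
  rw [this, List.toFinset_card_of_nodup]
  exact (List.nodup_range).filter _

/-- The utility of a mobile agent in terms of the base counts. -/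
theorem utility_base (hk : 2 ≤ k) (a : Ag k ↪ Node k e) (f : ℕ → ℕ)
    (hf : ∀ j : Fin 19, ∃ h : f j.val < 20, a (Sum.inl j) = Sum.inl ⟨f j.val, h⟩)
    (h2 : ∀ j : Fin (k - 2), a (Sum.inr j) = Sum.inr (Sum.inl j))
    (i : Fin 19) (hi : f i.val < 4) :
    utility (tree k e) (ty k hk) a (Sum.inl i) = (bnum f i.val : ℚ) / (bden f i.val : ℚ) := by
  classical
  obtain ⟨hfi, hai⟩ := hf i
  have hadj : ∀ j : Fin 19, (tree k e).Adj (a (Sum.inl i)) (a (Sum.inl j)) ↔
      adjb (f i.val) (f j.val) = true := by
    intro j
    obtain ⟨hfj, haj⟩ := hf j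
    rw [hai, haj, adj_base]
  have hnadj : ∀ j : Fin (k - 2), ¬ (tree k e).Adj (a (Sum.inl i)) (a (Sum.inr j)) := by
    intro j h
    rw [h2 j] at h
    have h4 := (adj_extra k e _ _).1 h.symm
    rw [hai, Sum.inl.injEq, Fin.ext_iff] at h4
    simp only at h4
    omega
  unfold utility
  have hn : (univ.filter fun y : Ag k => (tree k e).Adj (a (Sum.inl i)) (a y) ∧
      ty k hk y ≠ ty k hk (Sum.inl i)).card = bnum f i.val := by
    unfold bnum
    rw [← card_filter_fin 19 (fun j => adjb (f i.val) (f j) && decide (tyb j ≠ tyb i.val))]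
    rw [← Finset.card_map (Function.Embedding.inl (α := Fin 19) (β := Fin (k - 2)))]
    congr 1
    ext y
    simp only [mem_filter, mem_univ, true_and, mem_map, Function.Embedding.inl_apply]
    constructor
    · rintro ⟨h, h'⟩
      rcases y with j | j
      · refine ⟨j, ?_, rfl⟩
        rw [hadj] at h
        rw [ty_ne_iff] at h'
        simp only [Bool.and_eq_true, decide_eq_true_eq]
        exact ⟨h, h'⟩
      · exact absurd h (hnadj j)
    · rintro ⟨j, hj, rfl⟩
      simp only [Bool.and_eq_true, decide_eq_true_eq] at hj
      rw [hadj, ty_ne_iff]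
      exact ⟨hj.1, hj.2⟩
  have hd : (univ.filter fun y : Ag k => (tree k e).Adj (a (Sum.inl i)) (a y)).card =
      bden f i.val := by
    unfold bden
    rw [← card_filter_fin 19 (fun j => adjb (f i.val) (f j))]
    rw [← Finset.card_map (Function.Embedding.inl (α := Fin 19) (β := Fin (k - 2)))]
    congr 1
    ext y
    simp only [mem_filter, mem_univ, true_and, mem_map, Function.Embedding.inl_apply]
    constructor
    · intro h
      rcases y with j | j
      · exact ⟨j, (hadj j).1 h, rfl⟩
      · exact absurd h (hnadj j)
    · rintro ⟨j, hj, rfl⟩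
      exact (hadj j).2 hj
  congr 1
  · exact_mod_cast hn
  · exact_mod_cast hd

/-- There is always an improving jump in the trap. -/
theorem trap_not_equilibrium (hk : 2 ≤ k) (a : Ag k ↪ Node k e) (ha : InTrap k e a) :
    ¬ IsEquilibrium (tree k e) (ty k hk) a := by
  classical
  intro heq
  obtain ⟨x, y, z, hxy, hxz, hyz, hpos⟩ := pos_spec k e a ha
  have hm := hasMove_all x y z hxy hxz hyz
  unfold hasMove at hm
  rw [List.any_eq_true] at hm
  obtain ⟨i, hi, hm⟩ := hm
  rw [List.any_eq_true] at hm
  obtain ⟨v, hv, hm⟩ := hm
  rw [List.mem_range] at hi hv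
  simp only [Bool.and_eq_true, decide_eq_true_eq] at hm
  obtain ⟨⟨⟨⟨⟨hvx, hvy⟩, hvz⟩, hd1⟩, hd2⟩, hlt⟩ := hm
  have hi19 : i < 19 := by omega
  have hv20 : v < 20 := by omega
  -- the new assignment
  have hempty : ∀ w : Ag k, a w ≠ Sum.inl ⟨v, hv20⟩ := by
    intro w hw
    rcases w with j | j
    · obtain ⟨hj, hj'⟩ := hpos j
      rw [hj', Sum.inl.injEq, Fin.ext_iff] at hw
      simp only at hw
      unfold pos at hw
      split_ifs at hw with c1 c2 c3
      · exact hvx hw.symm
      · exact hvy hw.symm
      · exact hvz hw.symm
      · omega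
    · rw [ha.2.1 j] at hw
      cases hw
  let g : Ag k → Node k e := Function.update a (Sum.inl ⟨i, hi19⟩) (Sum.inl ⟨v, hv20⟩)
  have hginj : Function.Injective g := by
    intro w w' hww
    by_cases h : w = Sum.inl ⟨i, hi19⟩
    · by_cases h' : w' = Sum.inl ⟨i, hi19⟩
      · rw [h, h']
      · exfalso
        have h5 : g w = Sum.inl ⟨v, hv20⟩ := by
          rw [h]
          simp [g]
        have h6 : g w' = a w' := by
          simp only [g]
          rw [Function.update_of_ne h']
        rw [h5, h6] at hww
        exact hempty w' hww.symm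
    · by_cases h' : w' = Sum.inl ⟨i, hi19⟩
      · exfalso
        have h5 : g w' = Sum.inl ⟨v, hv20⟩ := by
          rw [h']
          simp [g]
        have h6 : g w = a w := by
          simp only [g]
          rw [Function.update_of_ne h]
        rw [h5, h6] at hww
        exact hempty w hww
      · have h5 : g w = a w := by
          simp only [g]
          rw [Function.update_of_ne h]
        have h6 : g w' = a w' := by
          simp only [g]
          rw [Function.update_of_ne h']
        rw [h5, h6] at hww
        exact a.injective hww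
  let b : Ag k ↪ Node k e := ⟨g, hginj⟩
  have hbv : b (Sum.inl ⟨i, hi19⟩) = Sum.inl ⟨v, hv20⟩ := by
    show g _ = _
    simp [g]
  apply heq b
  refine ⟨Sum.inl ⟨i, hi19⟩, ?_, ?_, ?_⟩
  · rw [hbv]
    exact hempty
  · intro j hj
    show g _ = _
    simp only [g]
    rw [Function.update_of_ne hj]
  have hposi : pos x.val y.val z.val i < 4 := by
    have hx := x.isLt
    have hy := y.isLt
    have hz := z.isLt
    unfold pos
    split_ifs <;> omega
  have hu1 := utility_base k e hk a (pos x.val y.val z.val) hpos ha.2.1 ⟨i, hi19⟩ hposi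
  have hposb : ∀ j : Fin 19, ∃ h : mv (pos x.val y.val z.val) i v j.val < 20,
      b (Sum.inl j) = Sum.inl ⟨mv (pos x.val y.val z.val) i v j.val, h⟩ := by
    intro j
    by_cases hji : j.val = i
    · have h5 : mv (pos x.val y.val z.val) i v j.val = v := by
        unfold mv
        rw [if_pos hji]
      refine ⟨by rw [h5]; exact hv20, ?_⟩
      have h6 : j = ⟨i, hi19⟩ := Fin.ext hji
      have h7 : b (Sum.inl j) = Sum.inl ⟨v, hv20⟩ := by
        rw [h6]
        show g _ = _
        simp [g]
      rw [h7]
      congr 1
      apply Fin.ext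
      exact h5.symm
    · have h5 : mv (pos x.val y.val z.val) i v j.val = pos x.val y.val z.val j.val := by
        unfold mv
        rw [if_neg hji]
      obtain ⟨hj, hj'⟩ := hpos j
      refine ⟨by rw [h5]; exact hj, ?_⟩
      have h7 : b (Sum.inl j) = a (Sum.inl j) := by
        show g _ = _
        simp only [g]
        rw [Function.update_of_ne]
        intro h
        rw [Sum.inl.injEq, Fin.ext_iff] at h
        exact hji h
      rw [h7, hj']
      congr 1
      apply Fin.ext
      exact h5.symm
  have h2b : ∀ j : Fin (k - 2), b (Sum.inr j) = Sum.inr (Sum.inl j) := by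
    intro j
    have h7 : g (Sum.inr j) = a (Sum.inr j) := by
      simp only [g]
      rw [Function.update_of_ne (by simp)]
    exact h7.trans (ha.2.1 j)
  have hu2 := utility_base k e hk b (mv (pos x.val y.val z.val) i v) hposb h2b ⟨i, hi19⟩
    (by
      show mv (pos x.val y.val z.val) i v i < 4
      unfold mv
      rw [if_pos rfl]
      exact hv)
  rw [hu1, hu2]
  simp only
  rw [div_lt_div_iff₀ (by exact_mod_cast hd1) (by exact_mod_cast hd2)]
  exact_mod_cast hlt

/-- The initial assignment. -/
def start : Ag k ↪ Node k e where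
  toFun := fun x => match x with
    | Sum.inl j => if j.val < 3 then Sum.inl j.castSucc else Sum.inl j.succ
    | Sum.inr j => Sum.inr (Sum.inl j)
  inj' := by
    intro x y hxy
    rcases x with i | i
    · rcases y with j | j
      · simp only at hxy
        congr 1
        apply Fin.ext
        split_ifs at hxy with h1 h2 h2
        · rw [Sum.inl.injEq, Fin.ext_iff] at hxy
          simpa using hxy
        · rw [Sum.inl.injEq, Fin.ext_iff] at hxy
          simp only [Fin.val_castSucc, Fin.val_succ] at hxy
          omega
        · rw [Sum.inl.injEq, Fin.ext_iff] at hxy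
          simp only [Fin.val_castSucc, Fin.val_succ] at hxy
          omega
        · rw [Sum.inl.injEq, Fin.ext_iff] at hxy
          simp only [Fin.val_succ] at hxy
          omega
      · simp only at hxy
        split_ifs at hxy
    · rcases y with j | j
      · simp only at hxy
        split_ifs at hxy
      · simp only [Sum.inr.injEq, Sum.inl.injEq] at hxy
        rw [hxy]

theorem start_inTrap : InTrap k e (start k e) := by
  refine ⟨?_, ?_, ?_⟩
  · intro j hj
    show (if j.val < 3 then Sum.inl j.castSucc else Sum.inl j.succ : Node k e) = _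
    rw [if_neg (by omega)]
  · intro j
    rfl
  · intro j hj
    refine ⟨j.castSucc, by simp only [Fin.val_castSucc]; omega, ?_⟩
    show (if j.val < 3 then Sum.inl j.castSucc else Sum.inl j.succ : Node k e) = _
    rw [if_pos hj]

end Example

/-- **Weak acyclicity fails on trees.** For every number `k ≥ 2` of types and every number
`e ≥ 1` of empty nodes there is a diversity-seeking jump game on a finite tree, with agents of
each of the `k` types and exactly `e` empty nodes, that is not weakly acyclic. -/
theorem result (k e : ℕ) (hk : 2 ≤ k) (he : 1 ≤ e) :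
    ∃ (V A : Type) (_ : Fintype V) (_ : Fintype A) (G : SimpleGraph V) (τ : A → Fin k),
      G.IsTree ∧ Function.Surjective τ ∧ Fintype.card V = Fintype.card A + e ∧
        ¬ WeaklyAcyclic G τ := by
  refine ⟨Node k e, Ag k, inferInstance, inferInstance, tree k e, ty k hk,
    tree_isTree k e, ?_, ?_, ?_⟩
  · intro t
    by_cases h0 : t.val = 0
    · exact ⟨Sum.inl 3, Fin.ext h0.symm⟩
    · by_cases h1 : t.val = 1
      · exact ⟨Sum.inl 0, Fin.ext h1.symm⟩
      · refine ⟨Sum.inr ⟨t.val - 2, by have := t.isLt; omega⟩, Fin.ext ?_⟩
        show t.val - 2 + 2 = t.val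
        omega
  · simp only [Fintype.card_sum, Fintype.card_fin]
    omega
  · intro hw
    obtain ⟨b, hb, heq⟩ := hw (start k e)
    have hclosed : ∀ c, Relation.ReflTransGen (ImprovingJump (tree k e) (ty k hk)) (start k e) c →
        InTrap k e c := by
      intro c hc
      induction hc with
      | refl => exact start_inTrap k e
      | tail _ hstep ih => exact trap_closed k e hk _ _ ih hstep
    exact trap_not_equilibrium k e hk b (hclosed b hb) heq

end Pool.Agent.Results.MP_39759c_lc.WeakAcyclicityFails
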